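import Pool.Agent.H28.CR.Top

set_option autoImplicit false

/-!
# Non-unital maps of a II₁ factor into its ultrapower

`N` is a separable II₁ factor and `ω` a free ultrafilter on `ℕ`. `JungProperty (vn h) ω` says that any
two trace preserving unital ⋆-homomorphisms `N → N^ω` are conjugate by a unitary of `N^ω`.
-/

universe u

open Filter Topology H80VN Pool.Agent.H68.Amp Pool.Agent.H28.JP Pool.Agent.H28.CR

namespace Pool.Agent.Results.MP_0c927e_an.CornerRigidity

/-- Let `N` be a separable II₁ factor.

(1) If every unital ⋆-homomorphism `N → N^ω` has trivial relative commutant (`AllIrreducible`), every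
nonzero, not necessarily unital ⋆-homomorphism `N → N^ω` is unital (`AllUnital`).

(2) If `N` does not have property Gamma and any two trace preserving unital ⋆-homomorphisms
`N → N^ω` are conjugate by a unitary of `N^ω`, every nonzero, not necessarily unital
⋆-homomorphism `N → N^ω` is `x ↦ u x u⋆` with a unitary `u` of `N^ω` (`AllConj`). -/
theorem result {N : Type u} [CStarAlgebra N] (ρ : N →ₗ[ℂ] ℂ) (h : Stmt.IsII1Factor ρ)
    (hsep : Stmt.Separable ρ) (ω : Ultrafilter ℕ) (hω : (ω : Filter ℕ) ≤ cofinite) :
    (AllIrreducible (vn h) (ω : Filter ℕ) → AllUnital (vn h) (ω : Filter ℕ)) ∧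
    (¬ Stmt.Gamma ρ → JungProperty (vn h) (ω : Filter ℕ) → AllConj (vn h) (ω : Filter ℕ)) :=
  ⟨all_unital h hsep ω hω, fun hG hJ => all_conj h hsep hG ω hω hJ⟩

end Pool.Agent.Results.MP_0c927e_an.CornerRigidity
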