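import Pool.Agent.H28.JP.Cen

set_option autoImplicit false

/-!
# II₁ factors all of whose embeddings into their ultrapower are conjugate

`N = (M, τ)` is a II₁ factor and `ω` a free ultrafilter on `ℕ` such that any two trace preserving
unital ⋆-homomorphisms `N → N^ω` are conjugate by a unitary of `N^ω` (`JungProperty`).
-/

universe u

open Filter Topology H80VN Pool.Agent.H68.Amp Pool.Agent.H28.JP

namespace Pool.Agent.Results.MP_0c927e_an.JungDichotomy

/-- Let `N` be a II₁ factor with the Jung property for `N^ω`.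

(a) Let `N` be separable. Then the center of the relative commutant `A = N' ∩ N^ω` contains no
projection except `0` and `1` (`A` is a factor). If, moreover, `N` has property Gamma, there is
`e ∈ A` with `e² = 0` and `e⋆ e + e e⋆ = 1`.

(b) If `N` does not have property Gamma, every unital ⋆-homomorphism `N → N^ω` has trivial relative
commutant, and every nonzero (not necessarily unital) ⋆-homomorphism `N → N` is `x ↦ w x w⋆` with a
unitary `w ∈ N`. -/
theorem result {M : Type u} [CStarAlgebra M] (τ : M →ₗ[ℂ] ℂ) (h : Stmt.IsII1Factor τ)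
    (ω : Ultrafilter ℕ) (hω : (ω : Filter ℕ) ≤ cofinite)
    (hJ : JungProperty (vn h) (ω : Filter ℕ)) :
    (Stmt.Separable τ → CommIsFactor (vn h) (ω : Filter ℕ) ∧
      (Stmt.Gamma τ → CommHasMatrixUnit (vn h) (ω : Filter ℕ))) ∧
    (¬ Stmt.Gamma τ → AllIrreducible (vn h) (ω : Filter ℕ) ∧ AllInner M) :=
  ⟨fun hsep => ⟨center_part h ω hω hJ hsep, gamma_part h ω hω hJ hsep⟩,
    fun hG => ⟨comm_part h ω hJ hG, corner_part h ω hω hJ hG⟩⟩

end Pool.Agent.Results.MP_0c927e_an.JungDichotomy
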