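import Pool.Agent.H80.RA.Top

set_option autoImplicit false

/-!
# The Jung property and relative amenability

`M` is a II₁ factor and `ω` a free ultrafilter on `ℕ` such that any two embeddings (trace preserving
unital ⋆-homomorphisms) `M → M^ω` are conjugate by a unitary of `M^ω` (`JungProperty`).
-/

universe u

open Filter Topology H80VN Pool.Agent.H68.Amp Pool.Agent.H28.JP Pool.Agent.H28.JT Pool.Agent.H80.RA

namespace Pool.Agent.Results.MP_0c927e_an.RelativeAmenability

/-- Let `M` be a II₁ factor with the Jung property for `M^ω`.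

(1) If `A, P ⊆ M` and some embedding `M → M^ω` maps `A` into `P^ω`, then `A` is amenable relative to
`P` inside `M`.

(2) Let `M` be the tensor product of `N` and `P`. If some embedding `M → M^ω` maps `N` into `P^ω`,
then `N` is amenable.

(3) Let `M` be the tensor product of `N` and `P`. If `N` embeds in `P^ω` and `P` embeds in `N^ω`,
then `N` and `P` are amenable.

(4) Let `M` be a cocycle crossed product of `P` by a group `Γ`. If some embedding `M → M^ω` maps the
unitaries `u g` into `P^ω`, then `Γ` is amenable.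

(5) If there are two embeddings `M → M^ω` with commuting ranges, then `M` has property Gamma, and if
`M` is the tensor product of a II₁ factor `N` without property Gamma and `P`, then `N` is
amenable. -/
theorem result {M : Type u} [CStarAlgebra M] (τ : M →ₗ[ℂ] ℂ) (h : Stmt.IsII1Factor τ)
    (ω : Ultrafilter ℕ) (hω : (ω : Filter ℕ) ≤ cofinite)
    (hJ : JungProperty (vn h) (ω : Filter ℕ)) :
    (∀ A P : Set M, MovesInto (vn h) (ω : Filter ℕ) A P → AmenRel τ A P) ∧
    (∀ (N P : Type u) [CStarAlgebra N] [CStarAlgebra P] (ρ : N →ₗ[ℂ] ℂ) (σ : P →ₗ[ℂ] ℂ)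
      (hN : Stmt.IsTracialVN ρ) (hP : Stmt.IsTracialVN σ) (i : N →⋆ₐ[ℂ] M) (j : P →⋆ₐ[ℂ] M),
      TensorVia τ ρ σ i j →
      (MovesInto (vn h) (ω : Filter ℕ) (Set.range i) (Set.range j) → Amenable ρ) ∧
      (EmbedsInUPow ρ hP (ω : Filter ℕ) → EmbedsInUPow σ hN (ω : Filter ℕ) →
        Amenable ρ ∧ Amenable σ) ∧
      (CommutingEmbeddings (vn h) (ω : Filter ℕ) → Stmt.IsII1Factor ρ → ¬ Stmt.Gamma ρ →
        Amenable ρ)) ∧
    (∀ (P : StarSubalgebra ℂ M) (Γ : Type u) [Group Γ] (u : Γ → M), IsCrossed τ P u →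
      MovesInto (vn h) (ω : Filter ℕ) (Set.range u) P → IsAmenableGroup Γ) ∧
    (CommutingEmbeddings (vn h) (ω : Filter ℕ) → Stmt.Gamma τ) := by
  refine ⟨fun A P hAP => amenRel_of_moves h ω hJ hAP, ?_, fun P Γ _ u hc hm =>
    amenable_group h.1.tracial hc (amenRel_of_moves h ω hJ hm), fun hc =>
    gamma_of_commuting h ω hJ hc⟩
  intro N P _ _ ρ σ hN hP i j hij
  refine ⟨fun hm => amenable_left (vn h) hN hP hij (amenRel_of_moves h ω hJ hm), fun h1 h2 => ?_,
    fun hc hN' hG => amenable_left (vn h) hN hP hij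
      (amenRel_of_moves h ω hJ (moves_of_commuting h ω hJ hc hN' hP hij hG))⟩
  obtain ⟨h3, h4⟩ := moves_of_embeds h hN hP hij ω hω h1 h2
  exact ⟨amenable_left (vn h) hN hP hij (amenRel_of_moves h ω hJ h3),
    amenable_left (vn h) hP hN (tensor_symm hij) (amenRel_of_moves h ω hJ h4)⟩

end Pool.Agent.Results.MP_0c927e_an.RelativeAmenability
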