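import Pool.Agent.H28.JT.Top

set_option autoImplicit false

/-!
# Unitary conjugacy and tensor factors

`M` is a II₁ factor, the tensor product of a II₁ factor `N` and a tracial von Neumann algebra `P`
(`TensorVia`), and `ω` is a free ultrafilter on `ℕ`. `JungProperty (vn hM) ω` says that any two trace
preserving unital ⋆-homomorphisms `M → M^ω` are conjugate by a unitary of `M^ω`.
-/

universe u

open Filter Topology H80VN Pool.Agent.H68.Amp Pool.Agent.H28.JP Pool.Agent.H28.JT

namespace Pool.Agent.Results.MP_0c927e_an.TensorFactor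

/-- The map `N^ω → M^ω` induced by `i` exists.

(a) Trace preserving unital ⋆-homomorphisms `p, q : A → N^ω`, `A` separable in the 2-norm, which
are conjugate by a unitary of `M^ω` are conjugate by a unitary of `N^ω` (`ConjDescends`).

(b) If any two trace preserving unital ⋆-homomorphisms `M → M^ω` are conjugate by a unitary of `M^ω`
and `N` is separable or does not have property Gamma, then any two trace preserving unital
⋆-homomorphisms `N → N^ω` are conjugate by a unitary of `N^ω`. -/
theorem result {M N P : Type u} [CStarAlgebra M] [CStarAlgebra N] [CStarAlgebra P]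
    (τ : M →ₗ[ℂ] ℂ) (ρ : N →ₗ[ℂ] ℂ) (σ : P →ₗ[ℂ] ℂ) (hM : Stmt.IsII1Factor τ)
    (hN : Stmt.IsII1Factor ρ) (hP : Stmt.IsTracialVN σ) (i : N →⋆ₐ[ℂ] M) (j : P →⋆ₐ[ℂ] M)
    (hij : TensorVia τ ρ σ i j) (ω : Ultrafilter ℕ) (hω : (ω : Filter ℕ) ≤ cofinite) :
    (∃ I, IsInduced (vn hM) (vn hN) (ω : Filter ℕ) i I) ∧
    ConjDescends (vn hM) (vn hN) (ω : Filter ℕ) i ∧
    (JungProperty (vn hM) (ω : Filter ℕ) → Stmt.Separable ρ ∨ ¬ Stmt.Gamma ρ →
      JungProperty (vn hN) (ω : Filter ℕ)) :=
  ⟨exists_induced (vn hM) (vn hN) hP hij (ω : Filter ℕ), conj_descends hM (vn hN) hP hij ω hω,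
    jung_factor hM hN hP hij ω hω⟩

end Pool.Agent.Results.MP_0c927e_an.TensorFactor
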